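import Pool.Agent.P.MP_59a3d4_lc.Sp.Main

set_option autoImplicit false

open Pool.Agent.P.MP_59a3d4_lc Pool.Agent.P.MP_59a3d4_lc.Sp

namespace Pool.Agent.Results.MP_59a3d4_lc.DegreeSpectrum

/-- The Turing degrees of the good splittings of a computable instance: a class `D` of sets arises
iff it is the class of sets that compute a path of a computable tree, with or without the
computable sets added. -/
theorem result (F V : Type) [Field F] [AddCommGroup V] [Module F V]
    [Primcodable F] [Primcodable V] (h : IsVInfinity F V) (D : Set (ℕ → Bool)) :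
    (∃ (V₁ V₂ : Submodule F V) (B : Set V), IsInstance V₁ V₂ B ∧ D = Spec V₁ V₂ B) ↔
      ∃ T : Set (List ℕ), ComputablePred (fun l => l ∈ T) ∧
        (D = Up T ∨ D = Up T ∪ {Z | Computable Z}) := by
  constructor
  · rintro ⟨V₁, V₂, B, hI, rfl⟩
    exact spec_tree h hI
  · rintro ⟨T, hT, hD⟩
    have hR : ComputablePred fun x : ℕ × List ℕ => x.2 ∈ T := cp_comp hT Computable.snd
    rcases hD with rfl | rfl
    · obtain ⟨V₁, V₂, B, h1, h2⟩ := realise h hR false
      exact ⟨_, _, _, h1.inst 0, by simpa using (h2 0).symm⟩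
    · obtain ⟨V₁, V₂, B, h1, h2⟩ := realise h hR true
      exact ⟨_, _, _, h1.inst 0, by simpa using (h2 0).symm⟩

end Pool.Agent.Results.MP_59a3d4_lc.DegreeSpectrum
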