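import Pool.Agent.P.MP_59a3d4_lc.Sp.Main

set_option autoImplicit false

open Pool.Agent.P.MP_59a3d4_lc Pool.Agent.P.MP_59a3d4_lc.Sp

namespace Pool.Agent.Results.MP_59a3d4_lc.IndexSet

/-- The existence of a good splitting is complete for the lightface analytic sets: a set `A` is the
set of indices of the members with a good splitting of a uniformly computable sequence of instances
iff `A` is lightface analytic. -/
theorem result (F V : Type) [Field F] [AddCommGroup V] [Module F V]
    [Primcodable F] [Primcodable V] (h : IsVInfinity F V) (A : Set ℕ) :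
    (∃ (V₁ V₂ : ℕ → Submodule F V) (B : ℕ → Set V), IsFamily V₁ V₂ B ∧
        A = {e | ∃ B₁ B₂, IsGoodSplitting (V₁ e) (V₂ e) (B e) B₁ B₂}) ↔ IsSigma11 A := by
  constructor
  · rintro ⟨V₁, V₂, B, hF, rfl⟩
    exact index_sigma h hF
  · rintro ⟨R, hR, hA⟩
    obtain ⟨V₁, V₂, B, h1, h2⟩ := realise h hR false
    refine ⟨V₁, V₂, B, h1, Set.ext fun e => ?_⟩
    rw [hA, Set.mem_ofPred_eq, spec_ne, h2]
    simp [up_ne]

end Pool.Agent.Results.MP_59a3d4_lc.IndexSet
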