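import Pool.Agent.P.MP_59a3d4_lc.Main
import Pool.Agent.P.MP_59a3d4_lc.Model

set_option autoImplicit false

open Pool.Agent.P.MP_59a3d4_lc

namespace Pool.Agent.Results.MP_59a3d4_lc.NoComputableSplitting

/-- Sanity check, not part of the result: the hypothesis `IsVInfinity` is satisfiable. -/
theorem hypothesis_satisfiable :
    ∃ (_ : Primcodable (ZMod 2)) (_ : Primcodable (ℕ →₀ ZMod 2)),
      @IsVInfinity (ZMod 2) (ℕ →₀ ZMod 2) (@ZMod.instField 2 ⟨Nat.prime_two⟩) _ _ _ _ :=
  exists_model

/-- Q2 has a negative answer, even for instances that do admit a good splitting: in every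
computable presentation of `V∞` there are decidable `V₁ ⊕ V₂ = V∞` and a computable basis `B`
that has a good splitting, while in no good splitting is `B₁` or `B₂` computably enumerable. -/
theorem result (F V : Type*) [Field F] [AddCommGroup V] [Module F V]
    [Primcodable F] [Primcodable V] (h : IsVInfinity F V) :
    ∃ (V₁ V₂ : Submodule F V) (B : Set V), IsCompl V₁ V₂ ∧
      ComputablePred (fun v => v ∈ V₁) ∧ ComputablePred (fun v => v ∈ V₂) ∧
      IsBasisSet F B ∧ ComputablePred (fun v => v ∈ B) ∧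
      (∃ B₁ B₂ : Set V, IsGoodSplitting V₁ V₂ B B₁ B₂) ∧
      ∀ B₁ B₂ : Set V, IsGoodSplitting V₁ V₂ B B₁ B₂ →
        ¬ REPred (fun v => v ∈ B₁) ∧ ¬ REPred (fun v => v ∈ B₂) :=
  main h

end Pool.Agent.Results.MP_59a3d4_lc.NoComputableSplitting
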