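import Pool.Agent.P.MP_59a3d4_lc.Gadget

set_option autoImplicit false

open Pool.Agent.P.MP_59a3d4_lc

namespace Pool.Agent.Results.MP_59a3d4_lc.NoGoodSplitting

/-- Q1 has a negative answer in every infinite-dimensional vector space over every field:
there are a decomposition `V₁ ⊕ V₂ = R` and a basis `B` of `R` with no good splitting. -/
theorem result (F R : Type*) [Field F] [AddCommGroup R] [Module F R]
    (hR : ¬ Module.Finite F R) :
    ∃ (V₁ V₂ : Submodule F R) (B : Set R), IsCompl V₁ V₂ ∧ IsBasisSet F B ∧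
      ¬ ∃ B₁ B₂ : Set R, IsGoodSplitting V₁ V₂ B B₁ B₂ := by
  let b := Module.Free.chooseBasis F R
  have hinf : Infinite (Module.Free.ChooseBasisIndex F R) := by
    rw [← not_finite_iff_infinite]
    intro h
    exact hR (Module.Finite.of_basis b)
  have e : Nonempty (Module.Free.ChooseBasisIndex F R ≃ Idx (Module.Free.ChooseBasisIndex F R)) := by
    rw [← Cardinal.eq]
    have h0 := Cardinal.aleph0_le_mk (Module.Free.ChooseBasisIndex F R)
    simp only [Idx, Cardinal.mk_sum, Cardinal.mk_prod, Cardinal.lift_id, Cardinal.lift_uzero,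
      Cardinal.mk_int, Cardinal.lift_aleph0]
    rw [Cardinal.mul_aleph0_eq h0, Cardinal.add_eq_self h0]
  obtain ⟨e⟩ := e
  let E := b.reindex e
  exact ⟨VX E, VY E, Set.range (bv E (fun p => p.2 < 0)), isCompl_VX_VY E, isBasisSet_bv E _,
    no_good_splitting E (Classical.arbitrary _)⟩

end Pool.Agent.Results.MP_59a3d4_lc.NoGoodSplitting
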